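import Mathlib

namespace Pool.Agent.Results.MP_c86f36_co.Twelve

/-- Number of edges of `G` with both endpoints in `S`. -/
noncomputable def span {n : ℕ} (G : SimpleGraph (Fin n)) (S : Finset (Fin n)) : ℕ :=
  {e ∈ G.edgeSet | ∀ v ∈ e, v ∈ S}.ncard

/-- Least number of edges spanned by `n / 2` vertices of the Turan graph `T_{t-1}(n)`. -/
noncomputable def b (t n : ℕ) : ℕ :=
  sInf {k | ∃ S : Finset (Fin n), S.card = n / 2 ∧ span (SimpleGraph.turanGraph n (t - 1)) S = k}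

def nxt (x : Fin 12) : Fin 12 := if x = 4 then 0 else if x = 11 then 5 else x + 1

def G : SimpleGraph (Fin 12) where
  Adj x y := x ≠ y ∧ nxt x ≠ y ∧ nxt y ≠ x
  symm := ⟨fun _ _ h => ⟨h.1.symm, h.2.2, h.2.1⟩⟩
  loopless := ⟨fun _ h => h.1 rfl⟩

instance : DecidableRel G.Adj := fun x y => by unfold G; infer_instance

lemma span_eq {n : ℕ} (H : SimpleGraph (Fin n)) [DecidableRel H.Adj] (S : Finset (Fin n)) :
    span H S = ((S ×ˢ S).filter fun p => p.1 < p.2 ∧ H.Adj p.1 p.2).card := by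
  unfold span
  rw [← Set.ncard_coe_finset]
  symm
  refine Set.ncard_congr (fun p _ => s(p.1, p.2)) ?_ ?_ ?_
  · rintro ⟨x, y⟩ hp
    simp only [Finset.coe_filter, Finset.mem_product, Set.mem_ofPred_eq] at hp
    simp [hp.2.2, hp.1.1, hp.1.2]
  · rintro ⟨x, y⟩ ⟨z, w⟩ hp hq h
    simp only [Finset.coe_filter, Finset.mem_product, Set.mem_ofPred_eq] at hp hq
    simp only [Sym2.eq, Sym2.rel_iff', Prod.mk.injEq, Prod.swap_prod_mk] at h
    rcases h with ⟨rfl, rfl⟩ | ⟨rfl, rfl⟩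
    · rfl
    · exact absurd hp.2.1 (not_lt.mpr hq.2.1.le)
  · intro e he
    induction e using Sym2.ind with
    | _ x y =>
      simp only [Set.mem_ofPred_eq, SimpleGraph.mem_edgeSet, Sym2.mem_iff, forall_eq_or_imp,
        forall_eq] at he
      rcases lt_or_gt_of_ne he.1.ne with h | h
      · exact ⟨(x, y), by simp [he.1, he.2.1, he.2.2, h], rfl⟩
      · exact ⟨(y, x), by simp [he.1.symm, he.2.1, he.2.2, h], Sym2.eq_swap⟩

def E : List (Fin 12 × Fin 12) := [(0, 2), (0, 3), (0, 5), (0, 6), (0, 7), (0, 8), (0, 9), (0, 10), (0, 11), (1, 3), (1, 4), (1, 5), (1, 6), (1, 7), (1, 8), (1, 9), (1, 10), (1, 11), (2, 4), (2, 5), (2, 6), (2, 7), (2, 8), (2, 9), (2, 10), (2, 11), (3, 5), (3, 6), (3, 7), (3, 8), (3, 9), (3, 10), (3, 11), (4, 5), (4, 6), (4, 7), (4, 8), (4, 9), (4, 10), (4, 11), (5, 7), (5, 8), (5, 9), (5, 10), (6, 8), (6, 9), (6, 10), (6, 11), (7, 9), (7, 10), (7, 11), (8, 10), (8, 11), (9, 11)]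

lemma memE : ∀ x y : Fin 12, (x, y) ∈ E ↔ x < y ∧ G.Adj x y := by decide +kernel

lemma nodupE : E.Nodup := by decide +kernel

def chk (m : ℕ) : Bool :=
  !(Nat.beq ((List.finRange 12).countP fun i => m.testBit i.val) 6) ||
    (Nat.ble 10 (E.countP fun p => m.testBit p.1.val && m.testBit p.2.val) &&
      (List.finRange 12).any fun i => m.testBit i.val && m.testBit (nxt i).val)

lemma chk_all : ∀ a : Fin 64, ∀ c : Fin 64, chk (a.val * 64 + c.val) = true := by decide +kernel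

lemma nxt_ne : ∀ x : Fin 12, x ≠ nxt x := by decide

lemma key (S : Finset (Fin 12)) (hS : S.card = 6) :
    9 < ((S ×ˢ S).filter fun p => p.1 < p.2 ∧ G.Adj p.1 p.2).card ∧
      ∃ x ∈ S, ∃ y ∈ S, x ≠ y ∧ ¬ G.Adj x y := by
  set m := Nat.ofBits (fun i : Fin 12 => decide (i ∈ S)) with hm
  have hlt : m < 2 ^ 12 := Nat.ofBits_lt_two_pow _
  have hb : ∀ i : Fin 12, m.testBit i.val = decide (i ∈ S) := fun i => by
    rw [hm, Nat.testBit_ofBits_lt _ _ i.isLt]
  have h := chk_all ⟨m / 64, by omega⟩ ⟨m % 64, by omega⟩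
  rw [show m / 64 * 64 + m % 64 = m by omega] at h
  simp only [chk, hb] at h
  have h6 : (List.finRange 12).countP (fun i => decide (i ∈ S)) = 6 := by
    rw [List.countP_eq_length_filter, ← List.toFinset_card_of_nodup
      ((List.nodup_finRange 12).filter _), ← hS]
    congr 1
    ext i; simp
  rw [h6] at h
  simp only [Nat.beq_refl, Bool.not_true, Bool.false_or, Bool.and_eq_true, Nat.ble_eq,
    List.any_eq_true, decide_eq_true_eq] at h
  obtain ⟨h1, x, _, hx, hy⟩ := h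
  refine ⟨?_, x, hx, nxt x, hy, nxt_ne x, fun hh => hh.2.1 rfl⟩
  rw [List.countP_eq_length_filter, ← List.toFinset_card_of_nodup (nodupE.filter _)] at h1
  refine lt_of_lt_of_le (by omega : 9 < 10) (h1.trans (Finset.card_le_card ?_))
  rintro ⟨a, c⟩ hp
  simp only [List.mem_toFinset, List.mem_filter, Bool.and_eq_true, decide_eq_true_eq, memE] at hp
  simp [hp.1.1, hp.1.2, hp.2.1, hp.2.2]

theorem result : ∃ (t n : ℕ) (H : SimpleGraph (Fin n)), 4 ≤ t ∧ 1 ≤ n ∧ Even n ∧ H.CliqueFree t ∧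
    ∀ S : Finset (Fin n), S.card = n / 2 → b t n < span H S := by
  refine ⟨6, 12, G, by norm_num, by norm_num, by decide, ?_, ?_⟩
  · intro S hS
    obtain ⟨x, hx, y, hy, hxy, h⟩ := (key S hS.card_eq).2
    exact h (hS.isClique hx hy hxy)
  · intro S hS
    have h1 : b 6 12 ≤ 9 := by
      apply Nat.sInf_le
      refine ⟨{0, 5, 10, 1, 6, 11}, by decide, ?_⟩
      rw [span_eq]
      decide +kernel
    rw [span_eq]
    exact lt_of_le_of_lt h1 (key S hS).1

end Pool.Agent.Results.MP_c86f36_co.Twelve
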